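import Mathlib

-- part Pool.Agent.Lib.MP_540347_an.Approx
section

set_option autoImplicit false

open Complex Set Metric Filter Topology
open scoped ComplexConjugate

namespace Pool.Agent.Lib.MP_540347_an

/-- `ψ` agrees on the unit circle with an entire function divided by a power of `z`. -/
def TP (ψ : ℂ → ℂ) : Prop :=
  ∃ (m : ℕ) (P : ℂ → ℂ), Differentiable ℂ P ∧ ∀ z : ℂ, ‖z‖ = 1 → z ^ m * ψ z = P z

lemma TP.add {ψ₁ ψ₂ : ℂ → ℂ} (h₁ : TP ψ₁) (h₂ : TP ψ₂) : TP (fun z => ψ₁ z + ψ₂ z) := by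
  obtain ⟨m₁, P₁, hP₁, e₁⟩ := h₁
  obtain ⟨m₂, P₂, hP₂, e₂⟩ := h₂
  refine ⟨m₁ + m₂, fun z => z ^ m₂ * P₁ z + z ^ m₁ * P₂ z, by fun_prop, fun z hz => ?_⟩
  beta_reduce
  rw [← e₁ z hz, ← e₂ z hz]; ring

lemma TP.smul {ψ : ℂ → ℂ} (h : TP ψ) (c : ℂ) : TP (fun z => c * ψ z) := by
  obtain ⟨m, P, hP, e⟩ := h
  refine ⟨m, fun z => c * P z, by fun_prop, fun z hz => ?_⟩
  beta_reduce
  rw [← e z hz]; ring

lemma TP.congr {ψ₁ ψ₂ : ℂ → ℂ} (h : TP ψ₁) (e : ∀ z : ℂ, ‖z‖ = 1 → ψ₁ z = ψ₂ z) : TP ψ₂ := by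
  obtain ⟨m, P, hP, e'⟩ := h
  exact ⟨m, P, hP, fun z hz => by rw [← e z hz, e' z hz]⟩

lemma conj_mul_self_of_norm_one {z : ℂ} (hz : ‖z‖ = 1) : z * conj z = 1 := by
  rw [Complex.mul_conj, Complex.normSq_eq_norm_sq, hz]; simp

lemma TP_pow (n : ℕ) : TP (fun z => z ^ n) :=
  ⟨0, fun z => z ^ n, by fun_prop, fun z _ => by simp⟩

lemma TP_conj_pow (n : ℕ) : TP (fun z => conj (z ^ n)) :=
  ⟨n, fun _ => 1, by fun_prop, fun z hz => by
    beta_reduce
    rw [map_pow, ← mul_pow, conj_mul_self_of_norm_one hz, one_pow]⟩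

/-- The invariant used for the span induction. -/
def Nice (ψ : ℂ → ℂ) : Prop :=
  TP ψ ∧ TP (fun z => conj (ψ z)) ∧
    ∃ r₁ r₂ : ℂ → ℂ, Differentiable ℂ r₁ ∧ Differentiable ℂ r₂ ∧
      ∀ z : ℂ, ‖z‖ = 1 → ψ z = r₁ z + conj (r₂ z)

lemma Nice.add {ψ₁ ψ₂ : ℂ → ℂ} (h₁ : Nice ψ₁) (h₂ : Nice ψ₂) : Nice (fun z => ψ₁ z + ψ₂ z) := by
  obtain ⟨a₁, b₁, r₁, s₁, hr₁, hs₁, e₁⟩ := h₁
  obtain ⟨a₂, b₂, r₂, s₂, hr₂, hs₂, e₂⟩ := h₂
  refine ⟨a₁.add a₂, (b₁.add b₂).congr (fun z _ => by simp), fun z => r₁ z + r₂ z,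
    fun z => s₁ z + s₂ z, by fun_prop, by fun_prop, fun z hz => ?_⟩
  simp only [e₁ z hz, e₂ z hz, map_add]; ring

lemma Nice.smul {ψ : ℂ → ℂ} (h : Nice ψ) (c : ℂ) : Nice (fun z => c * ψ z) := by
  obtain ⟨a, b, r, s, hr, hs, e⟩ := h
  refine ⟨a.smul c, (b.smul (conj c)).congr (fun z _ => by simp), fun z => c * r z,
    fun z => conj c * s z, by fun_prop, by fun_prop, fun z hz => ?_⟩
  simp only [e z hz, map_mul, conj_conj]; ring

lemma Nice_pow (n : ℕ) : Nice (fun z => z ^ n) :=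
  ⟨TP_pow n, TP_conj_pow n, fun z => z ^ n, fun _ => 0, by fun_prop, by fun_prop,
    fun z _ => by simp⟩

lemma Nice_conj_pow (n : ℕ) : Nice (fun z => conj (z ^ n)) :=
  ⟨TP_conj_pow n, (TP_pow n).congr (fun z _ => by simp), fun _ => 0, fun z => z ^ n,
    by fun_prop, by fun_prop, fun z _ => by simp⟩

lemma span_nice (f : C(AddCircle (1 : ℝ), ℂ))
    (hf : f ∈ Submodule.span ℂ (range (@fourier (1 : ℝ)))) :
    ∃ ψ : ℂ → ℂ, Nice ψ ∧ ∀ x : AddCircle (1 : ℝ), f x = ψ (AddCircle.toCircle x : ℂ) := by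
  induction hf using Submodule.span_induction with
  | mem f hf =>
    obtain ⟨n, rfl⟩ := hf
    have hpow : ∀ (k : ℕ) (x : AddCircle (1 : ℝ)),
        fourier (k : ℤ) x = (AddCircle.toCircle x : ℂ) ^ k := by
      intro k x
      induction k with
      | zero => simp
      | succ k ih =>
        rw [Nat.cast_succ, fourier_add, ih, fourier_one, pow_succ]
    obtain ⟨k, rfl | rfl⟩ := n.eq_nat_or_neg
    · exact ⟨fun z => z ^ k, Nice_pow k, fun x => hpow k x⟩
    · exact ⟨fun z => conj (z ^ k), Nice_conj_pow k, fun x => by rw [fourier_neg, hpow]⟩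
  | zero => exact ⟨fun z => 0 * z ^ 0, (Nice_pow 0).smul 0, fun x => by simp⟩
  | add f g _ _ hf hg =>
    obtain ⟨ψ₁, h₁, e₁⟩ := hf
    obtain ⟨ψ₂, h₂, e₂⟩ := hg
    exact ⟨fun z => ψ₁ z + ψ₂ z, h₁.add h₂, fun x => by simp [e₁, e₂]⟩
  | smul c f _ hf =>
    obtain ⟨ψ, h, e⟩ := hf
    exact ⟨fun z => c * ψ z, h.smul c, fun x => by simp [e]⟩

/-- Uniform approximation on the unit circle by real parts of entire functions which are
moreover Laurent polynomial like. -/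
theorem approx (φ : ℂ → ℝ) (hφ : Continuous φ) {η : ℝ} (hη : 0 < η) :
    ∃ A : ℂ → ℂ, Differentiable ℂ A ∧ TP (fun z => ((A z).re : ℂ)) ∧
      ∀ z : ℂ, ‖z‖ = 1 → |φ z - (A z).re| ≤ η := by
  let Φ : C(AddCircle (1 : ℝ), ℂ) :=
    ⟨fun x => (φ (AddCircle.toCircle x : ℂ) : ℂ), by
      have := @AddCircle.continuous_toCircle (1 : ℝ)
      fun_prop⟩
  have hΦ : Φ ∈ (Submodule.span ℂ (range (@fourier (1 : ℝ)))).topologicalClosure := by
    rw [span_fourier_closure_eq_top]; trivial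
  have hΦ' : Φ ∈ closure ((Submodule.span ℂ (range (@fourier (1 : ℝ))) : Submodule ℂ _) :
      Set C(AddCircle (1 : ℝ), ℂ)) := hΦ
  rw [Metric.mem_closure_iff] at hΦ'
  obtain ⟨f, hf, hd⟩ := hΦ' η hη
  obtain ⟨ψ, ⟨t₁, t₂, r₁, r₂, hr₁, hr₂, e⟩, hψ⟩ := span_nice f hf
  have hre : ∀ z : ℂ, ‖z‖ = 1 → (r₁ z + r₂ z).re = (ψ z).re := by
    intro z hz; rw [e z hz]; simp
  refine ⟨fun z => r₁ z + r₂ z, by fun_prop, ?_, fun z hz => ?_⟩
  · refine ((t₁.add t₂).smul (1 / 2)).congr (fun z hz => ?_)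
    simp only [hre z hz]
    rw [Complex.add_conj]; push_cast; ring
  · obtain ⟨x, hx⟩ : ∃ x : AddCircle (1 : ℝ), (AddCircle.toCircle x : ℂ) = z := by
      refine ⟨((z.arg / (2 * Real.pi) : ℝ) : AddCircle (1 : ℝ)), ?_⟩
      rw [AddCircle.toCircle_apply_mk, Circle.coe_exp]
      have : (2 * Real.pi / 1 * (z.arg / (2 * Real.pi)) : ℝ) = z.arg := by
        have := Real.pi_pos
        field_simp
      rw [this]
      have h2 := Complex.norm_mul_exp_arg_mul_I z
      rw [hz] at h2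
      simpa using h2
    have h1 : dist (Φ x) (f x) ≤ η := (ContinuousMap.dist_apply_le_dist x).trans hd.le
    rw [hψ x, dist_eq_norm] at h1
    simp only [Φ, ContinuousMap.coe_mk, hx] at h1
    simp only [hre z hz]
    have := Complex.abs_re_le_norm ((φ z : ℂ) - ψ z)
    simp only [Complex.sub_re, Complex.ofReal_re] at this
    linarith

end Pool.Agent.Lib.MP_540347_an
end

-- part Pool.Agent.Lib.MP_540347_an.Fejer
section

set_option autoImplicit false

open Complex Set Metric Filter Topology Real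

namespace Pool.Agent.Lib.MP_540347_an

/-- Average over the unit circle. -/
noncomputable def av (φ : ℂ → ℝ) : ℝ := Real.circleAverage φ 0 1

lemma circleMap_eq (θ : ℝ) : circleMap 0 1 θ = Complex.exp (θ * Complex.I) := by
  simp [circleMap]

lemma norm_circleMap_one (θ : ℝ) : ‖circleMap 0 1 θ‖ = 1 := by
  simp

lemma circleMap_arg {w : ℂ} (hw : ‖w‖ = 1) : circleMap 0 1 w.arg = w := by
  rw [circleMap_eq]
  have h2 := Complex.norm_mul_exp_arg_mul_I w
  rw [hw] at h2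
  simpa using h2

lemma circleMap_add' (a b : ℝ) : circleMap 0 1 (a + b) = circleMap 0 1 a * circleMap 0 1 b := by
  simp only [circleMap_eq]
  rw [← Complex.exp_add]; push_cast; ring_nf

lemma av_rot (φ : ℂ → ℝ) {w : ℂ} (hw : ‖w‖ = 1) : av (fun z => φ (z * w)) = av φ := by
  unfold av
  rw [Real.circleAverage_eq_integral_add (f := φ) w.arg, Real.circleAverage_def]
  simp only [circleMap_add', circleMap_arg hw]

lemma circleIntegrable_of_cont {φ : ℂ → ℝ} (h : Continuous φ) (R : ℝ) :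
    CircleIntegrable φ 0 R :=
  h.continuousOn.circleIntegrable'

lemma av_mono {φ ψ : ℂ → ℝ} (hφ : Continuous φ) (hψ : Continuous ψ)
    (h : ∀ z : ℂ, ‖z‖ = 1 → φ z ≤ ψ z) : av φ ≤ av ψ := by
  unfold av
  refine Real.circleAverage_mono (circleIntegrable_of_cont hφ 1) (circleIntegrable_of_cont hψ 1)
    (fun z hz => h z ?_)
  simpa using hz

lemma av_congr {φ ψ : ℂ → ℝ} (h : ∀ z : ℂ, ‖z‖ = 1 → φ z = ψ z) : av φ = av ψ := by
  unfold av
  refine Real.circleAverage_congr_sphere (fun z hz => h z ?_)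
  simpa using hz

lemma av_const (a : ℝ) : av (fun _ => a) = a := Real.circleAverage_const a 0 1

lemma av_add {φ ψ : ℂ → ℝ} (hφ : Continuous φ) (hψ : Continuous ψ) :
    av (fun z => φ z + ψ z) = av φ + av ψ :=
  Real.circleAverage_fun_add (circleIntegrable_of_cont hφ 1) (circleIntegrable_of_cont hψ 1)

lemma av_sub {φ ψ : ℂ → ℝ} (hφ : Continuous φ) (hψ : Continuous ψ) :
    av (fun z => φ z - ψ z) = av φ - av ψ :=
  Real.circleAverage_fun_sub (circleIntegrable_of_cont hφ 1) (circleIntegrable_of_cont hψ 1)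

lemma av_mul (a : ℝ) (φ : ℂ → ℝ) : av (fun z => a * φ z) = a * av φ := by
  have := Real.circleAverage_fun_smul (a := a) (f := φ) (c := 0) (R := 1)
  simpa [av] using this

lemma continuous_av {X : Type} [TopologicalSpace X] {Φ : X → ℂ → ℝ}
    (h : Continuous (Function.uncurry Φ)) : Continuous (fun x => av (Φ x)) := by
  unfold av Real.circleAverage
  simp only [smul_eq_mul]
  refine continuous_const.mul
    (intervalIntegral.continuous_parametric_intervalIntegral_of_continuous'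
      (f := fun x θ => Φ x (circleMap 0 1 θ)) ?_ _ _)
  have : Continuous (fun p : X × ℝ => (p.1, circleMap 0 1 p.2)) := by fun_prop
  exact h.comp this

lemma av_swap {Φ : ℂ → ℂ → ℝ} (h : Continuous (Function.uncurry Φ)) :
    av (fun z => av (Φ z)) = av (fun w => av (fun z => Φ z w)) := by
  unfold av Real.circleAverage
  simp only [smul_eq_mul, intervalIntegral.integral_const_mul]
  congr 2
  apply MeasureTheory.intervalIntegral_intervalIntegral_swap
    (F := fun a b => Φ (circleMap 0 1 a) (circleMap 0 1 b))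
  have hc : Continuous (Function.uncurry fun a b : ℝ =>
      Φ (circleMap 0 1 a) (circleMap 0 1 b)) := by
    have : Continuous (fun p : ℝ × ℝ => (circleMap 0 1 p.1, circleMap 0 1 p.2)) := by fun_prop
    exact h.comp this
  refine (hc.continuousOn.integrableOn_compact
    ((isCompact_uIcc (a := 0) (b := 2 * π)).prod (isCompact_uIcc (a := 0) (b := 2 * π)))).mono_set ?_
  exact Set.prod_mono uIoc_subset_uIcc uIoc_subset_uIcc

/-- One sided Fejer lemma. -/
theorem fejer {Φ : ℂ → ℂ → ℝ} (h : Continuous (Function.uncurry Φ)) {η : ℝ} (hη : 0 < η) :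
    ∀ᶠ N : ℕ in atTop, av (fun z => av (Φ z)) - η ≤ av (fun z => Φ z (z ^ N)) := by
  have hK : IsCompact (sphere (0 : ℂ) 1 ×ˢ sphere (0 : ℂ) 1) :=
    (isCompact_sphere _ _).prod (isCompact_sphere _ _)
  have hU := hK.uniformContinuousOn_of_continuous h.continuousOn
  rw [Metric.uniformContinuousOn_iff] at hU
  obtain ⟨δ, hδ, hU⟩ := hU η hη
  have hev : ∀ᶠ N : ℕ in atTop, π / (N : ℝ) < δ := by
    have : Tendsto (fun N : ℕ => π / (N : ℝ)) atTop (𝓝 0) := tendsto_const_div_atTop_nhds_zero_nat π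
    exact this.eventually (gt_mem_nhds hδ)
  filter_upwards [hev, eventually_gt_atTop 0] with N hN hN0
  have hc1 : Continuous (Function.uncurry fun z w : ℂ => Φ z (z ^ N * w)) := by
    have : Continuous (fun p : ℂ × ℂ => (p.1, p.1 ^ N * p.2)) := by fun_prop
    exact h.comp this
  have e1 : av (fun z => av (Φ z)) = av (fun z => av (fun w => Φ z (z ^ N * w))) := by
    refine av_congr (fun z hz => ?_)
    rw [← av_rot (Φ z) (w := z ^ N) (by simp [hz])]
    simp only [mul_comm]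
  rw [e1, av_swap hc1, sub_le_iff_le_add, ← av_const (av (fun z => Φ z (z ^ N)) + η)]
  have hc2 : Continuous (Function.uncurry fun w z : ℂ => Φ z (z ^ N * w)) := by
    have : Continuous (fun p : ℂ × ℂ => (p.2, p.2 ^ N * p.1)) := by fun_prop
    exact h.comp this
  refine av_mono (continuous_av hc2) continuous_const (fun w hw => ?_)
  set u : ℂ := circleMap 0 1 (w.arg / N) with hu
  have hu1 : ‖u‖ = 1 := norm_circleMap_one _
  have huN : u ^ N = w := by
    rw [hu, circleMap_zero_pow, one_pow]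
    have : (N : ℝ) ≠ 0 := by exact_mod_cast hN0.ne'
    rw [mul_div_cancel₀ _ this, circleMap_arg hw]
  have hu2 : ‖u - 1‖ < δ := by
    rw [hu, circleMap_eq, mul_comm]
    refine (Real.norm_exp_I_mul_ofReal_sub_one_le).trans_lt (lt_of_le_of_lt ?_ hN)
    rw [Real.norm_eq_abs, abs_div, Nat.abs_cast]
    gcongr
    exact Complex.abs_arg_le_pi w
  have hc3 : Continuous (fun z : ℂ => Φ (z * u) ((z * u) ^ N)) := by
    have : Continuous (fun z : ℂ => (z * u, (z * u) ^ N)) := by fun_prop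
    exact h.comp this
  have hc4 : Continuous (fun z : ℂ => Φ z (z ^ N * w)) := by
    have : Continuous (fun z : ℂ => (z, z ^ N * w)) := by fun_prop
    exact h.comp this
  rw [← av_rot (fun z => Φ z (z ^ N)) hu1, ← av_const η, ← av_add hc3 continuous_const]
  refine av_mono hc4 (hc3.add continuous_const) (fun z hz => ?_)
  have := hU (z, z ^ N * w) (by simp [hz, hw]) (z * u, z ^ N * w) (by simp [hz, hw, hu1]) (by
    rw [Prod.dist_eq, dist_self, dist_comm, dist_eq_norm]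
    have : z * u - z = z * (u - 1) := by ring
    rw [this, norm_mul, hz, one_mul]
    exact max_lt hu2 hδ)
  rw [Real.dist_eq] at this
  simp only [Function.uncurry] at this
  rw [mul_pow, huN]
  linarith [le_abs_self (Φ z (z ^ N * w) - Φ (z * u) (z ^ N * w))]

end Pool.Agent.Lib.MP_540347_an
end

-- part Pool.Agent.Lib.MP_540347_an.TwoPoint
section

set_option autoImplicit false

open Complex Set Metric Filter Topology Real MeasureTheory

namespace Pool.Agent.Lib.MP_540347_an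

lemma av_re_entire {A : ℂ → ℂ} (hA : Differentiable ℂ A) : av (fun z => (A z).re) = (A 0).re := by
  have : InnerProductSpace.HarmonicOnNhd (fun z => (A z).re) (closedBall (0 : ℂ) |1|) :=
    fun z _ => (hA.analyticAt z).harmonicAt_re
  exact this.circleAverage_eq

lemma ae_cos_ne (y : ℝ) : ∀ᵐ θ : ℝ, Real.cos θ ≠ Real.cos y := by
  have hc : ({θ : ℝ | Real.cos θ = Real.cos y}).Countable := by
    refine ((Set.countable_range (fun k : ℤ => 2 * k * π + y)).union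
      (Set.countable_range (fun k : ℤ => 2 * k * π - y))).mono (fun θ hθ => ?_)
    have := (Real.cos_eq_cos_iff.1 (Eq.symm hθ))
    obtain ⟨k, hk | hk⟩ := this
    · exact Or.inl ⟨k, hk.symm⟩
    · exact Or.inr ⟨k, hk.symm⟩
  exact hc.ae_notMem volume

lemma av_dominated {φ : ℕ → ℂ → ℝ} {ψ : ℂ → ℝ} {C : ℝ} (y : ℝ) (hc : ∀ n, Continuous (φ n))
    (hb : ∀ n z, ‖z‖ = 1 → |φ n z| ≤ C)
    (hl : ∀ z : ℂ, ‖z‖ = 1 → z.re ≠ Real.cos y → Tendsto (fun n => φ n z) atTop (𝓝 (ψ z))) :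
    Tendsto (fun n => av (φ n)) atTop (𝓝 (av ψ)) := by
  unfold av Real.circleAverage
  refine Tendsto.const_smul ?_ _
  refine intervalIntegral.tendsto_integral_filter_of_dominated_convergence (fun _ => C) ?_ ?_
    intervalIntegrable_const ?_
  · refine Eventually.of_forall (fun n => ?_)
    exact ((hc n).comp (continuous_circleMap 0 1)).aestronglyMeasurable
  · refine Eventually.of_forall (fun n => Eventually.of_forall (fun θ _ => ?_))
    exact hb n _ (norm_circleMap_one θ)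
  · filter_upwards [ae_cos_ne y] with θ hθ _
    exact hl _ (norm_circleMap_one θ) (by simpa [circleMap_zero_re] using hθ)

lemma av_two_point {q : ℝ} (hq0 : 0 < q) (hq1 : q < 1) (A B : ℝ) :
    av (fun w => if Real.cos (π * q) < w.re then A else B) = q * A + (1 - q) * B := by
  unfold av
  rw [Real.circleAverage_eq_integral_add (-π)]
  have hpi := Real.pi_pos
  have h1 : ∫ θ in (0 : ℝ)..2 * π,
      (if Real.cos (π * q) < (circleMap 0 1 (θ + -π)).re then A else B)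
      = ∫ θ in (0 : ℝ)..2 * π, (B + (Set.Ioo (π - π * q) (π + π * q)).indicator
          (fun _ => A - B) θ) := by
    refine intervalIntegral.integral_congr (fun θ hθ => ?_)
    rw [Set.uIcc_of_le (by positivity)] at hθ
    simp only [circleMap_zero_re, one_mul]
    have habs : |θ + -π| ≤ π := by rw [abs_le]; constructor <;> linarith [hθ.1, hθ.2]
    have hiff : Real.cos (π * q) < Real.cos (θ + -π) ↔ θ ∈ Set.Ioo (π - π * q) (π + π * q) := by
      rw [← Real.cos_abs (θ + -π)]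
      have hq' : π * q ≤ π := by nlinarith
      have := Real.strictAntiOn_cos.lt_iff_gt (a := π * q) (b := |θ + -π|)
        ⟨by positivity, hq'⟩ ⟨abs_nonneg _, habs⟩
      rw [this, abs_lt, Set.mem_Ioo]
      constructor <;> rintro ⟨h1, h2⟩ <;> constructor <;> linarith
    by_cases h : θ ∈ Set.Ioo (π - π * q) (π + π * q)
    · rw [if_pos (hiff.2 h), Set.indicator_of_mem h]; ring
    · rw [if_neg (fun h' => h (hiff.1 h')), Set.indicator_of_notMem h]; ring
  rw [h1, intervalIntegral.integral_add intervalIntegrable_const]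
  · rw [intervalIntegral.integral_of_le (f := Set.indicator _ _) (by positivity),
      setIntegral_indicator measurableSet_Ioo]
    have : Set.Ioc 0 (2 * π) ∩ Set.Ioo (π - π * q) (π + π * q)
        = Set.Ioo (π - π * q) (π + π * q) := by
      refine Set.inter_eq_right.2 (fun θ hθ => ⟨?_, ?_⟩) <;> nlinarith [hθ.1, hθ.2]
    rw [this]
    simp only [intervalIntegral.integral_const, sub_zero, smul_eq_mul, integral_const,
      MeasurableSet.univ, measureReal_restrict_apply, univ_inter]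
    rw [Real.volume_real_Ioo_of_le (by nlinarith)]
    field_simp
    ring
  · have hc : IntervalIntegrable (fun _ : ℝ => A - B) volume 0 (2 * π) :=
      intervalIntegrable_const
    exact ⟨hc.1.indicator measurableSet_Ioo, hc.2.indicator measurableSet_Ioo⟩

/-- The two valued mean zero function. -/
noncomputable def rho0 (q : ℝ) (w : ℂ) : ℝ := if Real.cos (π * q) < w.re then 1 - q else -q

theorem two_point_seq {q : ℝ} (hq0 : 0 < q) (hq1 : q < 1) :
    ∃ r : ℕ → ℂ → ℂ, (∀ n, Differentiable ℂ (r n)) ∧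
      (∀ n w, ‖w‖ = 1 → |(w * r n w).re| ≤ 4) ∧
      ∀ w : ℂ, ‖w‖ = 1 → w.re ≠ Real.cos (π * q) →
        Tendsto (fun n => (w * r n w).re) atTop (𝓝 (rho0 q w)) := by
  let τ : ℕ → ℂ → ℝ := fun n w => max (-q) (min (1 - q) (n * (w.re - Real.cos (π * q))))
  have hτ : ∀ n, Continuous (τ n) := fun n => by fun_prop
  have hτb : ∀ n w, |τ n w| ≤ 1 := by
    intro n w
    rw [abs_le]
    constructor
    · exact le_trans (by linarith) (le_max_left _ _)
    · exact max_le (by linarith) ((min_le_left _ _).trans (by linarith))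
  have hτl : ∀ w : ℂ, w.re ≠ Real.cos (π * q) →
      Tendsto (fun n => τ n w) atTop (𝓝 (rho0 q w)) := by
    intro w hw
    refine tendsto_const_nhds.congr' ?_
    rcases lt_or_gt_of_ne hw with h | h
    · have : Tendsto (fun n : ℕ => (n : ℝ) * (w.re - Real.cos (π * q))) atTop atBot :=
        tendsto_natCast_atTop_atTop.atTop_mul_const_of_neg (by linarith)
      filter_upwards [this.eventually_le_atBot (-q)] with n hn
      simp only [rho0, τ, if_neg (not_lt.2 h.le)]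
      rw [max_eq_left ((min_le_right _ _).trans hn)]
    · have : Tendsto (fun n : ℕ => (n : ℝ) * (w.re - Real.cos (π * q))) atTop atTop :=
        tendsto_natCast_atTop_atTop.atTop_mul_const (by linarith)
      filter_upwards [this.eventually_ge_atTop (1 - q)] with n hn
      simp only [rho0, τ, if_pos h]
      rw [min_eq_left hn, max_eq_right (by linarith)]
  choose A hA _ hAτ using fun n : ℕ =>
    approx (τ n) (hτ n) (η := 1 / ((n : ℝ) + 1)) (by positivity)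
  have hAb : ∀ n w, ‖w‖ = 1 → |(A n w).re| ≤ 2 := by
    intro n w hw
    have h1 := hAτ n w hw
    have h2 := hτb n w
    have h3 : 1 / ((n : ℝ) + 1) ≤ 1 := by
      rw [div_le_one (by positivity)]; linarith [Nat.cast_nonneg (α := ℝ) n]
    rw [abs_le] at *
    constructor <;> linarith [h1.1, h1.2, h2.1, h2.2]
  have hAl : ∀ w : ℂ, ‖w‖ = 1 → w.re ≠ Real.cos (π * q) →
      Tendsto (fun n => (A n w).re) atTop (𝓝 (rho0 q w)) := by
    intro w hw hw'
    have h0 : Tendsto (fun n => τ n w - (A n w).re) atTop (𝓝 0) := by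
      refine squeeze_zero_norm (fun n => hAτ n w hw) tendsto_one_div_add_atTop_nhds_zero_nat
    simpa using (hτl w hw').sub h0
  have hAc : ∀ n, Continuous (fun w => (A n w).re) := fun n =>
    Complex.continuous_re.comp (hA n).continuous
  have h0l : Tendsto (fun n => (A n 0).re) atTop (𝓝 0) := by
    have := av_dominated (π * q) hAc hAb hAl
    simp only [av_re_entire (hA _)] at this
    have e : av (rho0 q) = 0 := by
      have := av_two_point hq0 hq1 (1 - q) (-q)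
      rw [show av (rho0 q) = av (fun w => if Real.cos (π * q) < w.re then 1 - q else -q) from rfl,
        this]
      ring
    rwa [e] at this
  have h0b : ∀ n, |(A n 0).re| ≤ 2 := by
    intro n
    rw [← av_re_entire (hA n), abs_le]
    constructor
    · rw [← av_const (-2)]
      exact av_mono continuous_const (hAc n) (fun z hz => (abs_le.1 (hAb n z hz)).1)
    · rw [← av_const 2]
      exact av_mono (hAc n) continuous_const (fun z hz => (abs_le.1 (hAb n z hz)).2)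
  have hds : ∀ n w, w * dslope (A n) 0 w = A n w - A n 0 := by
    intro n w
    have := sub_smul_dslope (A n) 0 w
    simpa using this
  refine ⟨fun n => dslope (A n) 0, fun n => ?_, fun n w hw => ?_, fun w hw hw' => ?_⟩
  · rw [← differentiableOn_univ, Complex.differentiableOn_dslope univ_mem]
    exact (hA n).differentiableOn
  · rw [hds, Complex.sub_re]
    have h1 := hAb n w hw
    have h2 := h0b n
    rw [abs_le] at *
    constructor <;> linarith [h1.1, h1.2, h2.1, h2.2]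
  · simp only [hds, Complex.sub_re]
    simpa using (hAl w hw hw').sub h0l

end Pool.Agent.Lib.MP_540347_an
end

-- part Pool.Agent.Lib.MP_540347_an.Step
section

set_option autoImplicit false

open Complex Set Metric Filter Topology Real MeasureTheory

namespace Pool.Agent.Lib.MP_540347_an

/-- Admissible pairs of entire functions: subordination up to small extra coordinates. -/
def Adm (lam σ : ℝ) (F G : ℂ → ℂ) : Prop :=
  Differentiable ℂ F ∧ Differentiable ℂ G ∧ ∃ (m : ℕ) (c : Fin m → ℝ) (M : Fin m → ℕ),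
    ∑ j, c j ^ 2 ≤ σ ∧ ∀ z : ℂ, ‖z‖ ≤ 1 →
      ‖deriv G z‖ ^ 2 ≤ lam * ‖deriv F z‖ ^ 2 + ∑ j, (c j * (M j + 1) * ‖z‖ ^ (M j)) ^ 2

lemma exists_bound_ball {E : Type} [NormedAddCommGroup E] {f : ℂ → E} (hf : Continuous f) :
    ∃ K : ℝ, 0 < K ∧ ∀ z : ℂ, ‖z‖ ≤ 1 → ‖f z‖ ≤ K := by
  obtain ⟨K, hK⟩ := (isCompact_closedBall (0 : ℂ) 1).exists_bound_of_continuousOn hf.continuousOn
  refine ⟨max K 1, by positivity, fun z hz => (hK z (by simpa using hz)).trans (le_max_left _ _)⟩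

/-- The lacunary increment. -/
noncomputable def incr (m₀ : ℕ) (P r : ℂ → ℂ) (N : ℕ) (z : ℂ) : ℂ :=
  z ^ (N - m₀) * P z * r (z ^ N)

lemma incr_diff {m₀ : ℕ} {P r : ℂ → ℂ} (hP : Differentiable ℂ P) (hr : Differentiable ℂ r)
    (N : ℕ) : Differentiable ℂ (incr m₀ P r N) := by
  unfold incr
  fun_prop

lemma incr_deriv_small {m₀ : ℕ} {P r : ℂ → ℂ} (hP : Differentiable ℂ P) (hr : Differentiable ℂ r)
    {ρ τ : ℝ} (hρ0 : 0 ≤ ρ) (hρ1 : ρ < 1) (hτ : 0 < τ) :
    ∀ᶠ N : ℕ in atTop, ∀ z : ℂ, ‖z‖ ≤ ρ → ‖deriv (incr m₀ P r N) z‖ ≤ τ := by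
  obtain ⟨BP, hBP0, hBP⟩ := exists_bound_ball hP.continuous
  obtain ⟨Br, hBr0, hBr⟩ := exists_bound_ball hr.continuous
  set ρ' := (1 + ρ) / 2 with hρ'
  set R := (1 - ρ) / 2 with hR
  have hR0 : 0 < R := by linarith
  have hlim : Tendsto (fun N : ℕ => ρ' ^ (N - m₀) * BP * Br / R) atTop (𝓝 0) := by
    have h1 : Tendsto (fun N : ℕ => ρ' ^ (N - m₀)) atTop (𝓝 0) :=
      (tendsto_pow_atTop_nhds_zero_of_lt_one (by linarith) (by linarith)).comp
        (tendsto_sub_atTop_nat m₀)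
    simpa using ((h1.mul_const BP).mul_const Br).div_const R
  filter_upwards [hlim.eventually (gt_mem_nhds hτ)] with N hN z hz
  refine le_trans (Complex.norm_deriv_le_of_forall_mem_sphere_norm_le hR0
    (incr_diff hP hr N).diffContOnCl (fun w hw => ?_)) hN.le
  have hw' : ‖w‖ ≤ ρ' := by
    have : ‖w - z‖ = R := by simpa [dist_eq_norm] using hw
    have h2 := norm_add_le (w - z) z
    rw [sub_add_cancel] at h2
    linarith
  have hw1 : ‖w‖ ≤ 1 := by linarith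
  unfold incr
  rw [norm_mul, norm_mul, norm_pow]
  have h3 : ‖r (w ^ N)‖ ≤ Br := hBr _ (by rw [norm_pow]; exact pow_le_one₀ (norm_nonneg _) hw1)
  have h4 := hBP w hw1
  gcongr

lemma ineq_inner {lam a b f g t τ K S e : ℝ} (hlam : 1 < lam) (n1 : 0 ≤ a) (n2 : 0 ≤ b)
    (n3 : 0 ≤ f) (_n4 : 0 ≤ g) (hτ0 : 0 ≤ τ) (ht : t ≤ τ) (a1 : a ≤ g + t) (a3 : f ≤ b + t)
    (b1 : f ≤ K) (b2 : g ≤ K) (hsub : g ^ 2 ≤ lam * f ^ 2 + S)
    (hτ : (2 * lam * K + 2 * K) * τ + τ ^ 2 ≤ e ^ 2) : a ^ 2 ≤ lam * b ^ 2 + e ^ 2 + S := by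
  have c1 : a ^ 2 ≤ g ^ 2 + 2 * K * τ + τ ^ 2 := by
    have h1 : a ^ 2 ≤ (g + τ) ^ 2 := by gcongr; linarith
    have h2 : g * τ ≤ K * τ := by gcongr
    nlinarith
  have c2 : f ^ 2 ≤ b ^ 2 + 2 * K * τ := by
    have hK : 0 ≤ K * τ := mul_nonneg (by linarith) hτ0
    rcases le_total f b with hfb | hfb
    · have : f ^ 2 ≤ b ^ 2 := by gcongr
      linarith
    · have h1 : (f - b) * (f + b) ≤ τ * (2 * K) :=
        mul_le_mul (by linarith) (by linarith) (by linarith) hτ0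
      nlinarith
  have c3 : lam * f ^ 2 ≤ lam * (b ^ 2 + 2 * K * τ) :=
    mul_le_mul_of_nonneg_left c2 (by linarith)
  nlinarith

lemma ineq_outer {lam a b f g t K : ℝ} (hlam : 1 < lam) (n1 : 0 ≤ a)
    (a1 : a ≤ g + t) (a2 : t ≤ b + f) (b1 : f ≤ K) (b2 : g ≤ K) :
    a ^ 2 ≤ lam * b ^ 2 + lam / (lam - 1) * (2 * K) ^ 2 := by
  have c1 : a ≤ b + 2 * K := by linarith
  have hl : 0 < lam - 1 := by linarith
  have : lam * b ^ 2 + lam / (lam - 1) * (2 * K) ^ 2 - (b + 2 * K) ^ 2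
      = ((lam - 1) * b - 2 * K) ^ 2 / (lam - 1) := by
    field_simp; ring
  have h5 : 0 ≤ ((lam - 1) * b - 2 * K) ^ 2 / (lam - 1) := by positivity
  have c4 : a ^ 2 ≤ (b + 2 * K) ^ 2 := by gcongr
  linarith

lemma adm_step {lam σ η : ℝ} (hlam : 1 < lam) (hη : 0 < η) {F G : ℂ → ℂ} (h : Adm lam σ F G)
    {m₀ : ℕ} {P r : ℂ → ℂ} (hP : Differentiable ℂ P) (hr : Differentiable ℂ r)
    {d₁ d₂ : ℂ} (hd₁ : ‖d₁‖ = 1) (hd₂ : ‖d₂‖ = 1) :
    ∀ᶠ N : ℕ in atTop, Adm lam (σ + η) (fun z => F z + d₁ * incr m₀ P r N z)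
      (fun z => G z + d₂ * incr m₀ P r N z) := by
  obtain ⟨hF, hG, m, c, M, hσ, hsub⟩ := h
  obtain ⟨K₁, hK₁0, hK₁⟩ := exists_bound_ball hF.deriv.continuous
  obtain ⟨K₂, hK₂0, hK₂⟩ := exists_bound_ball hG.deriv.continuous
  set K := max K₁ K₂ with hK
  have hK0 : 0 < K := lt_max_of_lt_left hK₁0
  have hFK : ∀ z : ℂ, ‖z‖ ≤ 1 → ‖deriv F z‖ ≤ K := fun z hz => (hK₁ z hz).trans (le_max_left _ _)
  have hGK : ∀ z : ℂ, ‖z‖ ≤ 1 → ‖deriv G z‖ ≤ K := fun z hz => (hK₂ z hz).trans (le_max_right _ _)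
  set e := Real.sqrt (η / 2) with he
  have he0 : 0 < e := Real.sqrt_pos.2 (by linarith)
  have he2 : e ^ 2 = η / 2 := Real.sq_sqrt (by linarith)
  set X := lam / (lam - 1) * (2 * K) ^ 2 with hX
  obtain ⟨M₀, hM₀⟩ : ∃ M₀ : ℕ, X < (e * (M₀ + 1) * (1 : ℝ) ^ M₀) ^ 2 := by
    obtain ⟨M₀, hM₀⟩ := exists_nat_gt (X / e ^ 2)
    refine ⟨M₀, ?_⟩
    rw [div_lt_iff₀ (by positivity)] at hM₀
    have : (0 : ℝ) ≤ M₀ := Nat.cast_nonneg _
    rw [one_pow, mul_one, mul_pow]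
    nlinarith [sq_nonneg (M₀ : ℝ), sq_pos_of_pos he0]
  obtain ⟨ρ, hρ0, hρ1, hρ⟩ : ∃ ρ : ℝ, 0 ≤ ρ ∧ ρ < 1 ∧ X < (e * (M₀ + 1) * ρ ^ M₀) ^ 2 := by
    have hc : Continuous (fun ρ : ℝ => (e * (M₀ + 1) * ρ ^ M₀) ^ 2) := by fun_prop
    have h1 : ∀ᶠ ρ : ℝ in 𝓝[<] 1, X < (e * (M₀ + 1) * ρ ^ M₀) ^ 2 :=
      nhdsWithin_le_nhds (hc.continuousAt.eventually (lt_mem_nhds hM₀))
    have h2 : ∀ᶠ ρ : ℝ in 𝓝[<] 1, ρ ∈ Set.Ioo (0 : ℝ) 1 := Ioo_mem_nhdsLT zero_lt_one
    obtain ⟨ρ, h3, h4⟩ := (h1.and h2).exists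
    exact ⟨ρ, h4.1.le, h4.2, h3⟩
  obtain ⟨τ, hτ0, hτ⟩ : ∃ τ : ℝ, 0 < τ ∧ (2 * lam * K + 2 * K) * τ + τ ^ 2 ≤ e ^ 2 := by
    have hc : Continuous (fun τ : ℝ => (2 * lam * K + 2 * K) * τ + τ ^ 2) := by fun_prop
    have h0 : (2 * lam * K + 2 * K) * (0 : ℝ) + 0 ^ 2 < e ^ 2 := by simp; positivity
    have h1 : ∀ᶠ τ : ℝ in 𝓝[>] 0, (2 * lam * K + 2 * K) * τ + τ ^ 2 < e ^ 2 :=
      nhdsWithin_le_nhds (hc.continuousAt.eventually (gt_mem_nhds h0))
    obtain ⟨τ, h3, h4⟩ := (h1.and self_mem_nhdsWithin).exists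
    exact ⟨τ, h4, h3.le⟩
  filter_upwards [incr_deriv_small (m₀ := m₀) hP hr hρ0 hρ1 hτ0] with N hN
  have hE := incr_diff (m₀ := m₀) hP hr N
  refine ⟨by fun_prop, by fun_prop, m + 2, Fin.cons e (Fin.cons e c),
    Fin.cons M₀ (Fin.cons 0 M), ?_, fun z hz => ?_⟩
  · simp only [Fin.sum_univ_succ, Fin.cons_zero, Fin.cons_succ]
    linarith
  · have dF : deriv (fun z => F z + d₁ * incr m₀ P r N z) z
        = deriv F z + d₁ * deriv (incr m₀ P r N) z :=
      ((hF z).hasDerivAt.add ((hE z).hasDerivAt.const_mul d₁)).deriv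
    have dG : deriv (fun z => G z + d₂ * incr m₀ P r N z) z
        = deriv G z + d₂ * deriv (incr m₀ P r N) z :=
      ((hG z).hasDerivAt.add ((hE z).hasDerivAt.const_mul d₂)).deriv
    rw [dF, dG]
    simp only [Fin.sum_univ_succ, Fin.cons_zero, Fin.cons_succ, Nat.cast_zero, zero_add, mul_one,
      pow_zero]
    have hS : 0 ≤ ∑ j, (c j * (M j + 1) * ‖z‖ ^ (M j)) ^ 2 :=
      Finset.sum_nonneg (fun j _ => sq_nonneg _)
    have hsubz := hsub z hz
    set S := ∑ j, (c j * (M j + 1) * ‖z‖ ^ (M j)) ^ 2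
    set E := deriv (incr m₀ P r N) z
    have a1 : ‖deriv G z + d₂ * E‖ ≤ ‖deriv G z‖ + ‖E‖ := by
      simpa [hd₂] using norm_add_le (deriv G z) (d₂ * E)
    have a2 : ‖E‖ ≤ ‖deriv F z + d₁ * E‖ + ‖deriv F z‖ := by
      simpa [hd₁] using norm_sub_le (deriv F z + d₁ * E) (deriv F z)
    have a3 : ‖deriv F z‖ ≤ ‖deriv F z + d₁ * E‖ + ‖E‖ := by
      simpa [hd₁] using norm_sub_le (deriv F z + d₁ * E) (d₁ * E)
    have b1 := hFK z hz
    have b2 := hGK z hz
    have n1 := norm_nonneg (deriv G z + d₂ * E)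
    have n2 := norm_nonneg (deriv F z + d₁ * E)
    have n3 := norm_nonneg (deriv F z)
    have n4 := norm_nonneg (deriv G z)
    rcases le_total ‖z‖ ρ with hzρ | hzρ
    · have := ineq_inner hlam n1 n2 n3 n4 hτ0.le (hN z hzρ) a1 a3 b1 b2 hsubz hτ
      linarith [sq_nonneg (e * (M₀ + 1) * ‖z‖ ^ M₀)]
    · have c3 : (e * (M₀ + 1) * ρ ^ M₀) ^ 2 ≤ (e * (M₀ + 1) * ‖z‖ ^ M₀) ^ 2 := by gcongr
      have := ineq_outer hlam n1 a1 a2 b1 b2
      linarith [sq_nonneg e]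

/-- The two point averaging operator along a diagonal direction. -/
noncomputable def T (d₁ d₂ q : ℝ) (α Ψ : ℝ × ℝ → ℝ) (P : ℝ × ℝ) : ℝ :=
  q * Ψ (P.1 + d₁ * (α P * (1 - q)), P.2 + d₂ * (α P * (1 - q))) +
    (1 - q) * Ψ (P.1 + d₁ * (α P * (-q)), P.2 + d₂ * (α P * (-q)))

lemma T_cont {d₁ d₂ q : ℝ} {α Ψ : ℝ × ℝ → ℝ} (hα : Continuous α) (hΨ : Continuous Ψ) :
    Continuous (T d₁ d₂ q α Ψ) := by
  unfold T
  fun_prop

theorem step {lam σ η : ℝ} (hlam : 1 < lam) (hη : 0 < η) {F G : ℂ → ℂ} (h : Adm lam σ F G)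
    {d₁ d₂ q : ℝ} (hd₁ : |d₁| = 1) (hd₂ : |d₂| = 1) (hq0 : 0 < q) (hq1 : q < 1)
    {α Ψ : ℝ × ℝ → ℝ} (hα : Continuous α) (hΨ : Continuous Ψ) :
    ∃ F' G' : ℂ → ℂ, Adm lam (σ + η) F' G' ∧ F' 0 = F 0 ∧ G' 0 = G 0 ∧
      av (fun z => T d₁ d₂ q α Ψ ((F z).re, (G z).re)) - η
        ≤ av (fun z => Ψ ((F' z).re, (G' z).re)) := by
  have hF := h.1
  have hG := h.2.1
  have hFc := hF.continuous
  have hGc := hG.continuous
  obtain ⟨r, hr, hrb, hrl⟩ := two_point_seq hq0 hq1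
  have hαc : Continuous (fun z => α ((F z).re, (G z).re)) := by fun_prop
  choose A hA hAT hAα using fun n : ℕ =>
    approx _ hαc (η := 1 / ((n : ℝ) + 1)) (by positivity)
  obtain ⟨B₁, hB₁0, hB₁⟩ := exists_bound_ball hαc
  obtain ⟨B₂, hB₂0, hB₂⟩ := exists_bound_ball hFc
  obtain ⟨B₃, hB₃0, hB₃⟩ := exists_bound_ball hGc
  have hAb : ∀ n z, ‖z‖ = 1 → |(A n z).re| ≤ B₁ + 1 := by
    intro n z hz
    have h1 := hAα n z hz
    have h2 := hB₁ z hz.le
    have h3 : 1 / ((n : ℝ) + 1) ≤ 1 := by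
      rw [div_le_one (by positivity)]; linarith [Nat.cast_nonneg (α := ℝ) n]
    rw [Real.norm_eq_abs] at h2
    rw [abs_le] at *
    constructor <;> linarith [h1.1, h1.2, h2.1, h2.2]
  have hAl : ∀ z : ℂ, ‖z‖ = 1 →
      Tendsto (fun n => (A n z).re) atTop (𝓝 (α ((F z).re, (G z).re))) := by
    intro z hz
    have h0 : Tendsto (fun n => α ((F z).re, (G z).re) - (A n z).re) atTop (𝓝 0) :=
      squeeze_zero_norm (fun n => hAα n z hz) tendsto_one_div_add_atTop_nhds_zero_nat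
    simpa using (tendsto_const_nhds (x := α ((F z).re, (G z).re))).sub h0
  let Φ : ℕ → ℂ → ℂ → ℝ := fun n z w =>
    Ψ ((F z).re + d₁ * ((A n z).re * (w * r n w).re),
      (G z).re + d₂ * ((A n z).re * (w * r n w).re))
  have hΦc : ∀ n, Continuous (Function.uncurry (Φ n)) := by
    intro n
    have := (hA n).continuous
    have := (hr n).continuous
    change Continuous (fun p : ℂ × ℂ => Ψ ((F p.1).re + d₁ * ((A n p.1).re * (p.2 * r n p.2).re),
      (G p.1).re + d₂ * ((A n p.1).re * (p.2 * r n p.2).re)))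
    fun_prop
  obtain ⟨C, hC⟩ := (isCompact_closedBall (0 : ℝ × ℝ) (B₂ + B₃ + (B₁ + 1) * 4)
    ).exists_bound_of_continuousOn hΨ.continuousOn
  have hΦb : ∀ n z w, ‖z‖ = 1 → ‖w‖ = 1 → |Φ n z w| ≤ C := by
    intro n z w hz hw
    refine hC _ ?_
    have h1 : |(A n z).re * (w * r n w).re| ≤ (B₁ + 1) * 4 := by
      rw [abs_mul]
      exact mul_le_mul (hAb n z hz) (hrb n w hw) (abs_nonneg _) (by linarith)
    have h2 : |(F z).re| ≤ B₂ := (Complex.abs_re_le_norm _).trans (hB₂ z hz.le)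
    have h3 : |(G z).re| ≤ B₃ := (Complex.abs_re_le_norm _).trans (hB₃ z hz.le)
    rw [mem_closedBall_zero_iff, Prod.norm_def, max_le_iff, Real.norm_eq_abs, Real.norm_eq_abs]
    constructor
    · refine (abs_add_le _ _).trans ?_
      rw [abs_mul d₁, hd₁]; linarith
    · refine (abs_add_le _ _).trans ?_
      rw [abs_mul d₂, hd₂]; linarith
  have hΦc' : ∀ n z, Continuous (Φ n z) := fun n z => (hΦc n).comp (Continuous.prodMk_right z)
  have hin : ∀ z : ℂ, ‖z‖ = 1 → Tendsto (fun n => av (Φ n z)) atTop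
      (𝓝 (T d₁ d₂ q α Ψ ((F z).re, (G z).re))) := by
    intro z hz
    have h1 := av_dominated (φ := fun n => Φ n z)
      (ψ := fun w => Ψ ((F z).re + d₁ * (α ((F z).re, (G z).re) * rho0 q w),
        (G z).re + d₂ * (α ((F z).re, (G z).re) * rho0 q w))) (π * q) (fun n => hΦc' n z)
      (fun n w hw => hΦb n z w hz hw) (fun w hw hw' => by
        have h2 := (hAl z hz).mul (hrl w hw hw')
        exact (hΨ.tendsto _).comp (((h2.const_mul d₁).const_add _).prodMk_nhds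
          ((h2.const_mul d₂).const_add _)))
    convert h1 using 2
    unfold T
    rw [← av_two_point hq0 hq1]
    congr 1
    funext w
    unfold rho0
    split_ifs <;> rfl
  have hout := av_dominated (φ := fun n z => av (Φ n z))
    (ψ := fun z => T d₁ d₂ q α Ψ ((F z).re, (G z).re)) (C := C) 0
    (fun n => continuous_av (hΦc n)) (fun n z hz => by
      rw [abs_le]
      constructor
      · rw [← av_const (-C)]
        exact av_mono continuous_const (hΦc' n z) (fun w hw => (abs_le.1 (hΦb n z w hz hw)).1)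
      · rw [← av_const C]
        exact av_mono (hΦc' n z) continuous_const (fun w hw => (abs_le.1 (hΦb n z w hz hw)).2))
    (fun z hz _ => hin z hz)
  obtain ⟨n, hn⟩ := (hout.eventually (lt_mem_nhds (show
    av (fun z => T d₁ d₂ q α Ψ ((F z).re, (G z).re)) - η / 2 <
      av (fun z => T d₁ d₂ q α Ψ ((F z).re, (G z).re)) by linarith))).exists
  obtain ⟨m₀, P, hP, hPe⟩ := hAT n
  have e1 := adm_step hlam hη h (m₀ := m₀) hP (hr n) (d₁ := (d₁ : ℂ)) (d₂ := (d₂ : ℂ))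
    (by simpa using hd₁) (by simpa using hd₂)
  have e2 := fejer (hΦc n) (η := η / 2) (by linarith)
  obtain ⟨N, ⟨hN1, hN2⟩, hN3⟩ := ((e1.and e2).and (eventually_gt_atTop m₀)).exists
  have h0 : incr m₀ P (r n) N 0 = 0 := by
    unfold incr
    rw [zero_pow (by omega)]; simp
  refine ⟨_, _, hN1, by simp [h0], by simp [h0], ?_⟩
  have e3 : av (fun z => Φ n z (z ^ N)) = av (fun z => Ψ ((F z + d₁ * incr m₀ P (r n) N z).re,
      (G z + d₂ * incr m₀ P (r n) N z).re)) := by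
    refine av_congr (fun z hz => ?_)
    have : incr m₀ P (r n) N z = ((A n z).re : ℂ) * (z ^ N * r n (z ^ N)) := by
      unfold incr
      rw [← hPe z hz]
      have : z ^ N = z ^ (N - m₀) * z ^ m₀ := by rw [← pow_add]; congr 1; omega
      conv_rhs => rw [this]
      rw [← this]
      conv_rhs => enter [2, 1]; rw [this]
      ring
    simp only [Φ, this, Complex.add_re, Complex.re_ofReal_mul]
  rw [← e3]
  linarith

end Pool.Agent.Lib.MP_540347_an
end

-- part Pool.Agent.Lib.MP_540347_an.Mart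
section

set_option autoImplicit false

open Set Filter Topology

namespace Pool.Agent.Lib.MP_540347_an

/-- Classes of functions closed under the two point diagonal steps. -/
def Closed (𝒢 : (ℝ × ℝ → ℝ) → Prop) : Prop :=
  ∀ (d₁ d₂ q : ℝ) (α Ψ : ℝ × ℝ → ℝ), |d₁| = 1 → |d₂| = 1 → 0 < q → q < 1 → Continuous α →
    Continuous Ψ → 𝒢 Ψ → 𝒢 (T d₁ d₂ q α Ψ)

lemma Closed.swap {𝒢 : (ℝ × ℝ → ℝ) → Prop} (h : Closed 𝒢) :
    Closed (fun Ψ => 𝒢 (fun P => Ψ P.swap)) := by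
  intro d₁ d₂ q α Ψ h₁ h₂ q0 q1 hα hΨ hG
  exact h d₂ d₁ q (fun P => α P.swap) (fun P => Ψ P.swap) h₂ h₁ q0 q1 (by fun_prop) (by fun_prop) hG

/-- The invariant of the iteration. -/
def Inv (𝒢 : (ℝ × ℝ → ℝ) → Prop) (W : ℝ × ℝ → ℝ) (s p : ℝ) (Ψ : ℝ × ℝ → ℝ) (b : ℝ) : Prop :=
  Continuous Ψ ∧ 𝒢 Ψ ∧ (∀ P : ℝ × ℝ, s * P.2 ≤ (1 - s) * |P.1| → Ψ P = W P) ∧
    ∀ t : ℝ, 0 < t → Ψ (0, t) = b * t ^ p

lemma T_fix {d₁ d₂ q : ℝ} {α Ψ : ℝ × ℝ → ℝ} {P : ℝ × ℝ} (h : α P = 0) :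
    T d₁ d₂ q α Ψ P = Ψ P := by
  unfold T
  simp only [h, zero_mul, mul_zero, add_zero, Prod.mk.eta]
  ring

lemma iter_step {𝒢 : (ℝ × ℝ → ℝ) → Prop} (hG : Closed 𝒢) {W : ℝ × ℝ → ℝ} {s p δ ϖ : ℝ}
    (hs0 : 0 < s) (_hs1 : s < 1) (hδ0 : 0 < δ) (hδ : δ < s)
    (hW₁ : ∀ t : ℝ, 0 < t → W (s * t, (1 - s) * t) = ϖ * t ^ p)
    (hW₂ : ∀ t : ℝ, 0 < t → W (-(s * t), (1 - s) * t) = ϖ * t ^ p)
    {Ψ : ℝ × ℝ → ℝ} {b : ℝ} (h : Inv 𝒢 W s p Ψ b) :
    ∃ Ψ', Inv 𝒢 W s p Ψ'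
      (s / (s + δ) * ((s * (1 + 2 * δ) - δ) / (s * (1 + 2 * δ))) * (1 + 2 * δ) ^ p * b +
        (s / (s + δ) * (δ / (s * (1 + 2 * δ))) * (1 + 2 * δ) ^ p * ϖ + δ / (s + δ) * ϖ)) := by
  obtain ⟨hc, hg, hstop, hax⟩ := h
  set μ := s * (1 + 2 * δ) - δ with hμ
  have hμ0 : 0 < μ := by nlinarith
  let ℓ : ℝ × ℝ → ℝ := fun P => max (s * P.2 - (1 - s) * |P.1|) 0
  have hℓ : Continuous ℓ := by fun_prop
  let αA : ℝ × ℝ → ℝ := fun P => (s + δ) / s * ℓ P
  let αB : ℝ × ℝ → ℝ := fun P => s * (1 + 2 * δ) / μ * ℓ P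
  have hA : Continuous αA := by fun_prop
  have hB : Continuous αB := by fun_prop
  have hsd : 0 < s + δ := by linarith
  have hs2 : 0 < s * (1 + 2 * δ) := by positivity
  have cB := T_cont (d₁ := -1) (d₂ := 1) (q := μ / (s * (1 + 2 * δ))) hB hc
  have hstop0 : ∀ P : ℝ × ℝ, s * P.2 ≤ (1 - s) * |P.1| → ℓ P = 0 := fun P hP =>
    max_eq_right (by linarith)
  have hstopB : ∀ P : ℝ × ℝ, s * P.2 ≤ (1 - s) * |P.1| →
      T (-1) 1 (μ / (s * (1 + 2 * δ))) αB Ψ P = W P := fun P hP => by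
    rw [T_fix (by simp [αB, hstop0 P hP]), hstop P hP]
  refine ⟨T 1 1 (s / (s + δ)) αA (T (-1) 1 (μ / (s * (1 + 2 * δ))) αB Ψ), T_cont hA cB, ?_,
    fun P hP => ?_, fun t ht => ?_⟩
  · refine hG _ _ _ _ _ (by simp) (by simp) (by positivity) ?_ hA cB
      (hG _ _ _ _ _ (by simp) (by simp) (by positivity) ?_ hB hc hg)
    · rw [div_lt_one hsd]; linarith
    · rw [div_lt_one hs2]; linarith
  · rw [T_fix (by simp [αA, hstop0 P hP]), hstopB P hP]
  · have a1 : αA (0, t) = (s + δ) * t := by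
      simp only [αA, ℓ, abs_zero, mul_zero, sub_zero]
      rw [max_eq_left (by positivity)]
      field_simp
    have a2 : αB (δ * t, (1 + δ) * t) = s * (1 + 2 * δ) * t := by
      simp only [αB, ℓ]
      rw [abs_of_pos (by positivity), show s * ((1 + δ) * t) - (1 - s) * (δ * t) = μ * t by
        rw [hμ]; ring, max_eq_left (by positivity)]
      field_simp
    have p1 : ((0 : ℝ) + 1 * ((s + δ) * t * (1 - s / (s + δ))),
        t + 1 * ((s + δ) * t * (1 - s / (s + δ)))) = (δ * t, (1 + δ) * t) := by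
      refine Prod.ext ?_ ?_ <;> simp only <;> field_simp <;> ring
    have p2 : ((0 : ℝ) + 1 * ((s + δ) * t * (-(s / (s + δ)))),
        t + 1 * ((s + δ) * t * (-(s / (s + δ))))) = (-(s * t), (1 - s) * t) := by
      refine Prod.ext ?_ ?_ <;> simp only <;> field_simp <;> ring
    have p3 : (δ * t + -1 * (s * (1 + 2 * δ) * t * (1 - μ / (s * (1 + 2 * δ)))),
        (1 + δ) * t + 1 * (s * (1 + 2 * δ) * t * (1 - μ / (s * (1 + 2 * δ)))))
        = (0, (1 + 2 * δ) * t) := by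
      refine Prod.ext ?_ ?_ <;> simp only <;> field_simp <;> rw [hμ] <;> ring
    have p4 : (δ * t + -1 * (s * (1 + 2 * δ) * t * (-(μ / (s * (1 + 2 * δ))))),
        (1 + δ) * t + 1 * (s * (1 + 2 * δ) * t * (-(μ / (s * (1 + 2 * δ))))))
        = (s * ((1 + 2 * δ) * t), (1 - s) * ((1 + 2 * δ) * t)) := by
      refine Prod.ext ?_ ?_ <;> simp only <;> field_simp <;> rw [hμ] <;> ring
    have ht2 : 0 < (1 + 2 * δ) * t := by positivity
    have v1 : T (-1) 1 (μ / (s * (1 + 2 * δ))) αB Ψ (δ * t, (1 + δ) * t)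
        = μ / (s * (1 + 2 * δ)) * (b * ((1 + 2 * δ) * t) ^ p) +
          (1 - μ / (s * (1 + 2 * δ))) * (ϖ * ((1 + 2 * δ) * t) ^ p) := by
      unfold T
      simp only [a2, p3, p4]
      rw [hax _ ht2, hstop _ (by
        simp only; rw [abs_of_pos (by positivity)]; apply le_of_eq; ring), hW₁ _ ht2]
    have v2 : T (-1) 1 (μ / (s * (1 + 2 * δ))) αB Ψ (-(s * t), (1 - s) * t) = ϖ * t ^ p := by
      rw [hstopB _ (by
        simp only; rw [abs_neg, abs_of_pos (by positivity)]; apply le_of_eq; ring), hW₂ _ ht]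
    generalize T (-1) 1 (μ / (s * (1 + 2 * δ))) αB Ψ = Θ at v1 v2 ⊢
    unfold T
    simp only [a1, p1, p2]
    rw [v1, v2, Real.mul_rpow (by positivity) ht.le]
    have e1 : 1 - μ / (s * (1 + 2 * δ)) = δ / (s * (1 + 2 * δ)) := by
      field_simp; rw [hμ]; ring
    have e2 : 1 - s / (s + δ) = δ / (s + δ) := by
      field_simp; ring
    rw [e1, e2]
    ring

lemma iter {𝒢 : (ℝ × ℝ → ℝ) → Prop} (hG : Closed 𝒢) {W : ℝ × ℝ → ℝ} {s p δ ϖ b₀ : ℝ}
    (hs0 : 0 < s) (hs1 : s < 1) (hδ0 : 0 < δ) (hδ : δ < s) (hϖ : 0 ≤ ϖ)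
    (hW₁ : ∀ t : ℝ, 0 < t → W (s * t, (1 - s) * t) = ϖ * t ^ p)
    (hW₂ : ∀ t : ℝ, 0 < t → W (-(s * t), (1 - s) * t) = ϖ * t ^ p)
    (hW₀ : ∀ t : ℝ, 0 < t → W (0, t) = b₀ * t ^ p) (hWc : Continuous W) (hWG : 𝒢 W) (k : ℕ) :
    ∃ Ψ b, Inv 𝒢 W s p Ψ b ∧
      (s / (s + δ) * ((s * (1 + 2 * δ) - δ) / (s * (1 + 2 * δ))) * (1 + 2 * δ) ^ p) ^ (k + 1) * b₀
        + δ / (s + δ) * ϖ ≤ b := by
  have hμ0 : 0 < s * (1 + 2 * δ) - δ := by nlinarith
  set Q := s / (s + δ) * ((s * (1 + 2 * δ) - δ) / (s * (1 + 2 * δ))) * (1 + 2 * δ) ^ p with hQ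
  have hQ0 : 0 ≤ Q := by positivity
  have hR1 : 0 ≤ s / (s + δ) * (δ / (s * (1 + 2 * δ))) * (1 + 2 * δ) ^ p * ϖ := by positivity
  have hR2 : 0 ≤ δ / (s + δ) * ϖ := by positivity
  induction k with
  | zero =>
    obtain ⟨Ψ', h'⟩ := iter_step hG hs0 hs1 hδ0 hδ hW₁ hW₂ (Ψ := W) (b := b₀)
      ⟨hWc, hWG, fun _ _ => rfl, hW₀⟩
    exact ⟨Ψ', _, h', by rw [zero_add, pow_one]; linarith⟩
  | succ k ih =>
    obtain ⟨Ψ, b, h, hb⟩ := ih
    obtain ⟨Ψ', h'⟩ := iter_step hG hs0 hs1 hδ0 hδ hW₁ hW₂ h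
    refine ⟨Ψ', _, h', ?_⟩
    have : Q * (Q ^ (k + 1) * b₀) ≤ Q * b := mul_le_mul_of_nonneg_left (by linarith) hQ0
    rw [pow_succ' Q (k + 1), mul_assoc Q]
    linarith

/-- The test function. -/
noncomputable def V (p c : ℝ) (P : ℝ × ℝ) : ℝ := |P.2| ^ p - c ^ p * |P.1| ^ p

lemma V_cont {p : ℝ} (c : ℝ) (hp : 0 < p) : Continuous (V p c) := by
  unfold V
  have := Real.continuous_rpow_const hp.le
  fun_prop

lemma mart_big {𝒢 : (ℝ × ℝ → ℝ) → Prop} (hG : Closed 𝒢) {p c : ℝ} (hc0 : 0 < c)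
    (hc : c < p - 1) (hV : 𝒢 (V p c)) : ∃ Ψ, 𝒢 Ψ ∧ 0 < Ψ (1, 1) := by
  have hp : 1 < p := by linarith
  set s := 1 / (1 + c) with hs
  have hs0 : 0 < s := by positivity
  have hs1 : s < 1 := by rw [hs, div_lt_one (by linarith)]; linarith
  have hcs : 1 - s = c * s := by rw [hs]; field_simp; ring
  have hps : 1 < p * s := by rw [hs, mul_one_div, one_lt_div (by linarith)]; linarith
  set δ := min s ((p * s - 1) / (p + 1)) / 2 with hδ
  have hm : 0 < min s ((p * s - 1) / (p + 1)) :=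
    lt_min hs0 (div_pos (by linarith) (by linarith))
  have hδ0 : 0 < δ := by linarith
  have hδ1 : δ < s := by linarith [min_le_left s ((p * s - 1) / (p + 1))]
  have hδ2 : δ * (p + 1) < p * s - 1 := by
    rw [← lt_div_iff₀ (by linarith)]; linarith [min_le_right s ((p * s - 1) / (p + 1))]
  have hμ0 : 0 < s * (1 + 2 * δ) - δ := by nlinarith
  set Q := s / (s + δ) * ((s * (1 + 2 * δ) - δ) / (s * (1 + 2 * δ))) * (1 + 2 * δ) ^ p with hQ
  have hQ1 : 1 < Q := by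
    have h1 : 1 + p * (2 * δ) ≤ (1 + 2 * δ) ^ p :=
      one_add_mul_self_le_rpow_one_add (by linarith) hp.le
    have h2 : Q = (s * (1 + 2 * δ) - δ) * (1 + 2 * δ) ^ p / ((s + δ) * (1 + 2 * δ)) := by
      rw [hQ]; field_simp
    rw [h2, one_lt_div (by positivity)]
    refine lt_of_lt_of_le ?_ (mul_le_mul_of_nonneg_left h1 hμ0.le)
    have h3 : 0 < δ * (p * s - 1 - δ * (p + 1)) := mul_pos hδ0 (by linarith)
    have h4 : 0 < δ * δ * (p * s) := by positivity
    nlinarith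
  obtain ⟨k, hk⟩ := ((tendsto_pow_atTop_atTop_of_one_lt hQ1).eventually_gt_atTop (c ^ p)).exists
  have hst : ∀ t : ℝ, 0 < t → |(1 - s) * t| ^ p - c ^ p * |s * t| ^ p = 0 * t ^ p := by
    intro t ht
    rw [hcs, abs_of_pos (by positivity), abs_of_pos (by positivity), mul_assoc,
      Real.mul_rpow hc0.le (by positivity)]
    ring
  obtain ⟨Ψ, b, ⟨hΨc, hΨG, hstop, hax⟩, hb⟩ := iter hG (W := V p c) (p := p) (ϖ := 0) (b₀ := 1)
    hs0 hs1 hδ0 hδ1 le_rfl (fun t ht => hst t ht) (fun t ht => by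
      unfold V; simp only [abs_neg]; exact hst t ht)
    (fun t ht => by
      unfold V; simp only [abs_zero]
      rw [Real.zero_rpow (by linarith), abs_of_pos ht]; ring)
    (V_cont c (by linarith)) hV k
  have hb' : c ^ p < b := by
    have : Q ^ k ≤ Q ^ (k + 1) := pow_le_pow_right₀ hQ1.le (Nat.le_succ k)
    rw [mul_one, mul_zero, add_zero] at hb
    linarith
  refine ⟨T (-1) 1 (1 / 2) (fun _ => 2) Ψ, hG _ _ _ _ _ (by simp) (by simp) (by norm_num)
    (by norm_num) continuous_const hΨc hΨG, ?_⟩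
  unfold T
  norm_num
  rw [hax 2 (by norm_num), hstop (2, 0) (by simp; linarith)]
  unfold V
  simp only [abs_zero]
  rw [Real.zero_rpow (by linarith), abs_of_pos (by norm_num)]
  have : (0 : ℝ) < 2 ^ p := by positivity
  nlinarith

lemma mart_small {𝒢 : (ℝ × ℝ → ℝ) → Prop} (hG : Closed 𝒢) {p c : ℝ} (hp : 1 < p) (hp2 : p ≤ 2)
    (hc0 : 0 < c) (hc : c * (p - 1) < 1) (hV : 𝒢 (V p c)) : ∃ Ψ, 𝒢 Ψ ∧ 0 < Ψ (1, 0) := by
  have hlt : c / (1 + c) < 1 / p := by
    rw [div_lt_div_iff₀ (by linarith) (by linarith)]; linarith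
  obtain ⟨s, hsl, hsu⟩ := exists_between hlt
  have hs0 : 0 < s := lt_trans (by positivity) hsl
  have hps : p * s < 1 := by rw [lt_div_iff₀ (by linarith)] at hsu; linarith
  have hs1 : s < 1 := by nlinarith
  have hcs : c * (1 - s) < s := by rw [div_lt_iff₀ (by linarith)] at hsl; linarith
  set δ := min s (1 - p * s) / 2 with hδ
  have hm : 0 < min s (1 - p * s) := lt_min hs0 (by linarith)
  have hδ0 : 0 < δ := by linarith
  have hδ1 : δ < s := by linarith [min_le_left s (1 - p * s)]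
  have hδ2 : δ < 1 - p * s := by linarith [min_le_right s (1 - p * s)]
  have hμ0 : 0 < s * (1 + 2 * δ) - δ := by nlinarith
  set Q := s / (s + δ) * ((s * (1 + 2 * δ) - δ) / (s * (1 + 2 * δ))) * (1 + 2 * δ) ^ p with hQ
  have hQ0 : 0 ≤ Q := by positivity
  have hQ1 : Q < 1 := by
    have h1 : (1 + 2 * δ) ^ (p - 1) ≤ 1 + (p - 1) * (2 * δ) :=
      rpow_one_add_le_one_add_mul_self (by linarith) (by linarith) (by linarith)
    have h0 : (1 + 2 * δ) ^ p = (1 + 2 * δ) ^ (p - 1) * (1 + 2 * δ) := by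
      rw [← Real.rpow_add_one (by positivity)]; ring_nf
    have h2 : Q = (s * (1 + 2 * δ) - δ) * (1 + 2 * δ) ^ (p - 1) / (s + δ) := by
      rw [hQ, h0]; field_simp
    rw [h2, div_lt_one (by positivity)]
    refine lt_of_le_of_lt (mul_le_mul_of_nonneg_left h1 hμ0.le) ?_
    have h3 : 0 < δ * (1 - p * s - δ) := mul_pos hδ0 (by linarith)
    have h5 : (p - 1) * (2 * s - 1) ≤ 1 := by nlinarith
    have h4 : δ * δ * ((p - 1) * (2 * s - 1)) ≤ δ * δ * 1 :=
      mul_le_mul_of_nonneg_left h5 (by positivity)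
    nlinarith
  set ϖ := s ^ p - (c * (1 - s)) ^ p with hϖ
  have hϖ0 : 0 < ϖ := by
    have := Real.rpow_lt_rpow (by have : 0 < 1 - s := by linarith
                                  positivity) hcs (show 0 < p by linarith)
    linarith
  have hR : 0 < δ / (s + δ) * ϖ := by positivity
  have hlim : Tendsto (fun k : ℕ => Q ^ (k + 1) * (c ^ p)) atTop (𝓝 0) := by
    have := ((tendsto_pow_atTop_nhds_zero_of_lt_one hQ0 hQ1).comp
      (tendsto_add_atTop_nat 1)).mul_const (c ^ p)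
    simpa using this
  obtain ⟨k, hk⟩ := (hlim.eventually (gt_mem_nhds hR)).exists
  have hst : ∀ t : ℝ, 0 < t → |s * t| ^ p - c ^ p * |(1 - s) * t| ^ p = ϖ * t ^ p := by
    intro t ht
    have : 0 < 1 - s := by linarith
    rw [abs_of_pos (by positivity), abs_of_pos (by positivity), hϖ,
      Real.mul_rpow hs0.le ht.le, Real.mul_rpow this.le ht.le, Real.mul_rpow hc0.le this.le]
    ring
  obtain ⟨Ψ, b, ⟨hΨc, hΨG, hstop, hax⟩, hb⟩ := iter hG.swap (W := fun P => V p c P.swap) (p := p)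
    (ϖ := ϖ) (b₀ := -c ^ p)
    hs0 hs1 hδ0 hδ1 hϖ0.le (fun t ht => hst t ht) (fun t ht => by
      unfold V; simp only [Prod.swap_prod_mk, abs_neg]; exact hst t ht)
    (fun t ht => by
      unfold V; simp only [Prod.swap_prod_mk, abs_zero]
      rw [Real.zero_rpow (by linarith), abs_of_pos ht]; ring)
    ((V_cont c (by linarith)).comp continuous_swap) hV k
  refine ⟨_, hΨG, ?_⟩
  simp only [Prod.swap_prod_mk]
  rw [hax 1 one_pos, Real.one_rpow]
  linarith

theorem mart {𝒢 : (ℝ × ℝ → ℝ) → Prop} (hG : Closed 𝒢) {p c : ℝ} (hp : 1 < p)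
    (hc0 : 0 < c) (hc : c < max p (p / (p - 1)) - 1) (hV : 𝒢 (V p c)) :
    ∃ Ψ x₀ y₀, |y₀| ≤ |x₀| ∧ 𝒢 Ψ ∧ 0 < Ψ (x₀, y₀) := by
  by_cases h : c < p - 1
  · obtain ⟨Ψ, h1, h2⟩ := mart_big hG hc0 h hV
    exact ⟨Ψ, 1, 1, le_rfl, h1, h2⟩
  · have h1 : c < p / (p - 1) - 1 := by
      rcases le_total p (p / (p - 1)) with h' | h'
      · rwa [max_eq_right h'] at hc
      · rw [max_eq_left h'] at hc; exact absurd hc h
    have h2 : c * (p - 1) < 1 := by
      rw [lt_sub_iff_add_lt, lt_div_iff₀ (by linarith)] at h1; linarith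
    have h3 : p ≤ 2 := by
      by_contra h4
      push Not at h h4
      nlinarith
    obtain ⟨Ψ, h1, h2⟩ := mart_small hG hp h3 hc0 h2 hV
    exact ⟨Ψ, 1, 0, by simp, h1, h2⟩

/-- Functions whose averages can be (almost) beaten by averages of `W` after modification. -/
def Good (lam : ℝ) (W Ψ : ℝ × ℝ → ℝ) : Prop :=
  ∀ (σ η : ℝ) (F G : ℂ → ℂ), 0 < η → Adm lam σ F G →
    ∃ F' G' : ℂ → ℂ, Adm lam (σ + η) F' G' ∧ F' 0 = F 0 ∧ G' 0 = G 0 ∧
      av (fun z => Ψ ((F z).re, (G z).re)) - η ≤ av (fun z => W ((F' z).re, (G' z).re))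

lemma good_closed {lam : ℝ} (hlam : 1 < lam) (W : ℝ × ℝ → ℝ) : Closed (Good lam W) := by
  intro d₁ d₂ q α Ψ h₁ h₂ q0 q1 hα hΨ hG σ η F G hη hFG
  obtain ⟨F₁, G₁, a1, a2, a3, a4⟩ := step hlam (half_pos hη) hFG h₁ h₂ q0 q1 hα hΨ
  obtain ⟨F₂, G₂, b1, b2, b3, b4⟩ := hG _ (η / 2) F₁ G₁ (half_pos hη) a1
  refine ⟨F₂, G₂, by simpa [add_assoc] using b1, b2.trans a2, b3.trans a3, by linarith⟩

lemma good_self (lam : ℝ) (W : ℝ × ℝ → ℝ) : Good lam W W := by
  intro σ η F G hη hFG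
  obtain ⟨hF, hG, m, c, M, hσ, hsub⟩ := hFG
  exact ⟨F, G, ⟨hF, hG, m, c, M, by linarith, hsub⟩, rfl, rfl, by linarith⟩

theorem exists_adm {lam p c : ℝ} (hlam : 1 < lam) (hp : 1 < p)
    (hc0 : 0 < c) (hc : c < max p (p / (p - 1)) - 1) :
    ∃ β : ℝ, 0 < β ∧ ∀ σ : ℝ, 0 < σ → ∃ F G : ℂ → ℂ, Adm lam σ F G ∧ |(G 0).re| ≤ |(F 0).re| ∧
      β ≤ av (fun z => V p c ((F z).re, (G z).re)) := by
  obtain ⟨Ψ, x₀, y₀, h0, hG, hpos⟩ := mart (good_closed hlam (V p c)) hp hc0 hc (good_self _ _)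
  refine ⟨Ψ (x₀, y₀) / 2, by linarith, fun σ hσ => ?_⟩
  have hA : Adm lam 0 (fun _ => (x₀ : ℂ)) (fun _ => (y₀ : ℂ)) :=
    ⟨by fun_prop, by fun_prop, 0, Fin.elim0, Fin.elim0, by simp, fun z _ => by simp⟩
  obtain ⟨F, G, ⟨hF, hG', m, c', M, hσ', hsub⟩, e1, e2, e3⟩ :=
    hG 0 (min σ (Ψ (x₀, y₀) / 2)) _ _ (lt_min hσ (by linarith)) hA
  refine ⟨F, G, ⟨hF, hG', m, c', M, ?_, hsub⟩, by simpa [e1, e2] using h0, ?_⟩
  · linarith [min_le_left σ (Ψ (x₀, y₀) / 2)]
  · simp only [Complex.ofReal_re, av_const] at e3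
    linarith [min_le_right σ (Ψ (x₀, y₀) / 2)]

end Pool.Agent.Lib.MP_540347_an
end

-- part Pool.Agent.Lib.MP_540347_an.Harm
section

set_option autoImplicit false

open Complex Set Metric Filter Topology InnerProductSpace

namespace Pool.Agent.Lib.MP_540347_an

lemma harmonicAt_comp_isometry {E₁ E₂ F : Type} [NormedAddCommGroup E₁] [InnerProductSpace ℝ E₁]
    [FiniteDimensional ℝ E₁] [NormedAddCommGroup E₂] [InnerProductSpace ℝ E₂]
    [FiniteDimensional ℝ E₂] [NormedAddCommGroup F] [NormedSpace ℝ F]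
    (L : E₁ ≃ₗᵢ[ℝ] E₂) {f : E₂ → F} {x : E₁} (h : HarmonicAt f (L x)) :
    HarmonicAt (fun y => f (L y)) x := by
  refine ⟨h.1.comp x L.contDiff.contDiffAt, ?_⟩
  have e : ∀ y, Laplacian.laplacian (fun y => f (L y)) y = Laplacian.laplacian f (L y) := by
    intro y
    rw [laplacian_eq_iteratedFDeriv_orthonormalBasis _ (stdOrthonormalBasis ℝ E₁),
      laplacian_eq_iteratedFDeriv_orthonormalBasis _ ((stdOrthonormalBasis ℝ E₁).map L)]
    refine Finset.sum_congr rfl (fun i _ => ?_)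
    have := L.toContinuousLinearEquiv.iteratedFDerivWithin_comp_right f uniqueDiffOn_univ
      (x := y) (mem_univ _) 2
    simp only [preimage_univ, iteratedFDerivWithin_univ] at this
    change iteratedFDeriv ℝ 2 (f ∘ L.toContinuousLinearEquiv) y _ = _
    rw [this]
    simp only [ContinuousMultilinearMap.compContinuousLinearMap_apply]
    congr 1
    funext j
    fin_cases j <;> simp
  have h2 := L.continuous.continuousAt.eventually h.2
  filter_upwards [h2] with y hy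
  rw [e y]
  exact hy

/-- Real parts of a vector of complex numbers. -/
noncomputable def reV (k : ℕ) : (Fin k → ℂ) →L[ℝ] EuclideanSpace ℝ (Fin k) :=
  (PiLp.continuousLinearEquiv 2 ℝ (fun _ : Fin k => ℝ)).symm.toContinuousLinearMap ∘L
    ContinuousLinearMap.pi (fun i => Complex.reCLM ∘L ContinuousLinearMap.proj i)

@[simp] lemma reV_apply (k : ℕ) (a : Fin k → ℂ) (i : Fin k) : reV k a i = (a i).re := rfl

/-- The vector of real parts of a family of entire functions. -/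
noncomputable def vecC {k : ℕ} (U : Fin k → ℂ → ℂ) (z : ℂ) : EuclideanSpace ℝ (Fin k) :=
  reV k (fun i => U i z)

lemma vecC_cont {k : ℕ} {U : Fin k → ℂ → ℂ} (hU : ∀ i, Differentiable ℂ (U i)) :
    Continuous (vecC U) :=
  (reV k).continuous.comp (continuous_pi (fun i => (hU i).continuous))

lemma vecC_harm {k : ℕ} {U : Fin k → ℂ → ℂ} (hU : ∀ i, Differentiable ℂ (U i)) (z : ℂ) :
    HarmonicAt (vecC U) z := by
  have : Differentiable ℂ (fun z i => U i z) := differentiable_pi.2 hU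
  exact (this.analyticAt z).harmonicAt.comp_CLM (reV k)

lemma vecC_norm_sq {k : ℕ} (U : Fin k → ℂ → ℂ) (z : ℂ) :
    ‖vecC U z‖ ^ 2 = ∑ i, (U i z).re ^ 2 := by
  rw [EuclideanSpace.real_norm_sq_eq]
  rfl

/-- The identification of the Euclidean plane with the complex numbers. -/
noncomputable def iot : EuclideanSpace ℝ (Fin 2) ≃ₗᵢ[ℝ] ℂ :=
  Complex.orthonormalBasisOneI.repr.symm

lemma grad_vec {k : ℕ} {U : Fin k → ℂ → ℂ} (hU : ∀ i, Differentiable ℂ (U i))
    (x : EuclideanSpace ℝ (Fin 2)) :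
    ∑ i : Fin 2, ‖fderiv ℝ (fun y => vecC U (iot y)) x (EuclideanSpace.single i (1 : ℝ))‖ ^ 2
      = ∑ j, ‖deriv (U j) (iot x)‖ ^ 2 := by
  have h1 : HasDerivAt (fun z i => U i z) (fun i => deriv (U i) (iot x)) (iot x) :=
    hasDerivAt_pi.2 (fun i => (hU i _).hasDerivAt)
  have h2 := (reV k).hasFDerivAt.comp x
    ((h1.hasFDerivAt.restrictScalars ℝ).comp x iot.toContinuousLinearEquiv.hasFDerivAt)
  have h3 : fderiv ℝ (fun y => vecC U (iot y)) x = _ := h2.fderiv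
  rw [h3]
  simp only [Fin.sum_univ_two, EuclideanSpace.real_norm_sq_eq, ← Finset.sum_add_distrib]
  refine Finset.sum_congr rfl (fun j _ => ?_)
  rw [Complex.sq_norm, Complex.normSq_apply]
  simp [iot]
  ring

lemma re_le_of_boundary {B : ℂ → ℂ} (hB : Differentiable ℂ B)
    (h : ∀ z : ℂ, ‖z‖ = 1 → (B z).re ≤ 0) {z : ℂ} (hz : ‖z‖ ≤ 1) : (B z).re ≤ 0 := by
  have hd : Differentiable ℂ (fun z => Complex.exp (B z)) := by fun_prop
  have := Complex.norm_le_of_forall_mem_frontier_norm_le (isBounded_ball (x := (0 : ℂ)) (r := 1))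
    hd.diffContOnCl (C := 1) (fun w hw => by
      rw [frontier_ball _ one_ne_zero] at hw
      rw [Complex.norm_exp, Real.exp_le_one_iff]
      exact h w (by simpa using hw)) (z := z) (by
      rw [closure_ball _ one_ne_zero]; simpa using hz)
  rwa [Complex.norm_exp, Real.exp_le_one_iff] at this

lemma tangent_rpow {p s n : ℝ} (hp : 1 ≤ p) (hs : 0 ≤ s) (hn : 0 < n) :
    n ^ p + p * n ^ p * (s / n - 1) ≤ s ^ p := by
  have h1 := one_add_mul_self_le_rpow_one_add (s := s / n - 1)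
    (by have : 0 ≤ s / n := by positivity
        linarith) hp
  rw [add_sub_cancel, Real.div_rpow hs hn.le, le_div_iff₀ (by positivity)] at h1
  linarith

lemma majorant {k : ℕ} {U : Fin k → ℂ → ℂ} (hU : ∀ i, Differentiable ℂ (U i)) {p : ℝ}
    (hp : 1 ≤ p) {A : ℂ → ℂ} (hA : Differentiable ℂ A)
    (h : ∀ z : ℂ, ‖z‖ = 1 → ‖vecC U z‖ ^ p ≤ (A z).re) {z₀ : ℂ} (hz : ‖z₀‖ ≤ 1) :
    ‖vecC U z₀‖ ^ p ≤ (A z₀).re := by
  set a := vecC U z₀ with ha
  rcases (norm_nonneg a).eq_or_lt with h0 | h0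
  · rw [← h0, Real.zero_rpow (by linarith)]
    have := re_le_of_boundary (B := fun z => -A z) hA.neg (fun z hz => by
      have h1 := h z hz
      have h2 : 0 ≤ ‖vecC U z‖ ^ p := by positivity
      simp only [Complex.neg_re]; linarith) hz
    simpa using this
  · set n := ‖a‖ with hn
    have key : ∀ z : ℂ, (((n ^ p : ℝ) : ℂ) + ((p * n ^ p : ℝ) : ℂ) *
        ((∑ i, ((a i / n ^ 2 : ℝ) : ℂ) * U i z) - 1) - A z).re
        = n ^ p + p * n ^ p * (inner ℝ (vecC U z) a / n ^ 2 - 1) - (A z).re := by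
      intro z
      simp only [Complex.sub_re, Complex.add_re, Complex.ofReal_re, Complex.re_ofReal_mul,
        Complex.re_sum, Complex.one_re, PiLp.inner_apply, Finset.sum_div]
      congr 4
      refine Finset.sum_congr rfl (fun i _ => ?_)
      simp [vecC]
      ring
    have := re_le_of_boundary (B := fun z => ((n ^ p : ℝ) : ℂ) + ((p * n ^ p : ℝ) : ℂ) *
        ((∑ i, ((a i / n ^ 2 : ℝ) : ℂ) * U i z) - 1) - A z) (by fun_prop) (fun z hz => by
      rw [key]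
      have h1 := h z hz
      have h2 := tangent_rpow hp (norm_nonneg (vecC U z)) h0
      have h3 : inner ℝ (vecC U z) a / n ^ 2 ≤ ‖vecC U z‖ / n := by
        rw [div_le_div_iff₀ (by positivity) h0]
        have := real_inner_le_norm (vecC U z) a
        nlinarith
      have h4 : p * n ^ p * (inner ℝ (vecC U z) a / n ^ 2 - 1)
          ≤ p * n ^ p * (‖vecC U z‖ / n - 1) := by gcongr
      linarith) hz
    rw [key, ← ha, real_inner_self_eq_norm_sq, ← hn, div_self (by positivity)] at this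
    linarith

lemma lower_bound {φ : ℂ → ℝ} (hφ : Continuous φ) {g : EuclideanSpace ℝ (Fin 2) → ℝ}
    (hg : HarmonicOnNhd g (ball 0 1)) (h : ∀ x ∈ ball 0 1, φ (iot x) ≤ g x) : av φ ≤ g 0 := by
  have hh : HarmonicOnNhd (fun z => g (iot.symm z)) (ball 0 1) := fun z hz =>
    harmonicAt_comp_isometry iot.symm (hg _ (by simpa using hz))
  have hc : Continuous (Real.circleAverage φ 0) := Real.Continuous.circleAverage hφ
  have hl : Tendsto (Real.circleAverage φ 0) (𝓝[<] 1) (𝓝 (av φ)) :=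
    (hc.tendsto 1).mono_left nhdsWithin_le_nhds
  refine le_of_tendsto hl ?_
  filter_upwards [Ioo_mem_nhdsLT zero_lt_one] with r hr
  have hsub : closedBall (0 : ℂ) |r| ⊆ ball 0 1 :=
    closedBall_subset_ball (by rw [abs_of_pos hr.1]; exact hr.2)
  have h1 := (hh.mono hsub).circleAverage_eq
  simp only [map_zero] at h1
  rw [← h1]
  refine Real.circleAverage_mono (circleIntegrable_of_cont hφ r)
    (((hh.mono hsub).continuousOn.mono sphere_subset_closedBall).circleIntegrable')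
    (fun z hz => ?_)
  have := h (iot.symm z) (by simpa using hsub (sphere_subset_closedBall hz))
  simpa using this

end Pool.Agent.Lib.MP_540347_an
end
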